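import Mathlib

namespace Pool.Agent.Results.MP_550572_gt.Braid

/-- the strand found at each position after the first `t` crossings of the word `B` -/
def cfg {n : ℕ} (B : List (Fin n)) (t : ℕ) : Equiv.Perm (Fin (n + 1)) :=
  ((B.take t).map fun k => Equiv.swap k.castSucc k.succ).prod

/-- the CN matrix of the braid projection with word `B` on `n + 1` strands -/
def CN {n : ℕ} (B : List (Fin n)) (i j : Fin (n + 1)) : ℕ :=
  (Finset.univ.filter fun t : Fin B.length =>
    s(cfg B t (B.get t).castSucc, cfg B t (B.get t).succ) = s(i, j)).card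

theorem cfg_succ {n : ℕ} (B : List (Fin n)) (t : Fin B.length) :
    cfg B (t + 1) = cfg B t * Equiv.swap (B.get t).castSucc (B.get t).succ := by
  rw [cfg, List.take_succ_eq_append_getElem t.2, List.map_append, List.prod_append,
    List.map_singleton, List.prod_singleton]
  rfl

theorem step {n : ℕ} (B : List (Fin n)) (t : Fin B.length) (i j : Fin (n + 1))
    (h : s(cfg B t (B.get t).castSucc, cfg B t (B.get t).succ) ≠ s(i, j)) :
    (cfg B (t + 1)).symm i < (cfg B (t + 1)).symm j ↔ (cfg B t).symm i < (cfg B t).symm j := by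
  have e := cfg_succ B t
  obtain ⟨a, rfl⟩ := (cfg B t).surjective i
  obtain ⟨b, rfl⟩ := (cfg B t).surjective j
  have e2 : ∀ a, (cfg B (t + 1)).symm (cfg B t a) =
      Equiv.swap (B.get t).castSucc (B.get t).succ a := fun a => by
    rw [Equiv.symm_apply_eq, e, Equiv.Perm.mul_apply, Equiv.swap_apply_self]
  rw [e2, e2, Equiv.symm_apply_apply, Equiv.symm_apply_apply]
  generalize B.get t = k at h ⊢
  simp only [ne_eq, Sym2.eq_iff, EmbeddingLike.apply_eq_iff_eq] at h
  simp only [Equiv.swap_apply_def, Fin.ext_iff, Fin.val_castSucc, Fin.val_succ] at h ⊢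
  split_ifs <;> simp only [Fin.lt_def, Fin.val_castSucc, Fin.val_succ] <;> omega

theorem change {n : ℕ} (B : List (Fin n)) (i j : Fin (n + 1)) (s t : ℕ) (hst : s ≤ t)
    (ht : t ≤ B.length) (h : ¬((cfg B t).symm i < (cfg B t).symm j ↔
      (cfg B s).symm i < (cfg B s).symm j)) : ∃ u : Fin B.length, s ≤ u ∧ u < t ∧
      s(cfg B u (B.get u).castSucc, cfg B u (B.get u).succ) = s(i, j) := by
  induction t, hst using Nat.le_induction with
  | base => simp at h
  | succ t hst ih =>
    by_cases c : s(cfg B t (B.get ⟨t, ht⟩).castSucc, cfg B t (B.get ⟨t, ht⟩).succ) = s(i, j)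
    · exact ⟨⟨t, ht⟩, hst, t.lt_succ_self, c⟩
    obtain ⟨u, h1, h2, h3⟩ := ih (by omega) fun e => h ((step B ⟨t, ht⟩ i j c).trans e)
    exact ⟨u, h1, by omega, h3⟩

def P : List (Fin 10 × Fin 10) :=
  [(0, 2), (0, 4), (0, 7), (0, 8), (0, 9), (1, 2), (1, 5), (1, 6), (1, 8), (2, 8), (3, 4),
  (3, 6), (3, 9), (4, 9), (5, 6), (5, 8), (7, 8), (7, 9)]

def M (i j : Fin 10) : ℕ := if i = j ∨ (i, j) ∈ P ∨ (j, i) ∈ P then 0 else 2

theorem result : ∃ (n : ℕ) (M : Fin (n + 1) → Fin (n + 1) → ℕ), (∀ i j, M i j = M j i) ∧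
    (∀ i j, Even (M i j)) ∧ (∀ i, M i i = 0) ∧
    (∀ i j k, i < j → j < k → M i j = 0 → M j k = 0 → M i k = 0) ∧
    ¬∃ B : List (Fin n), ∀ i j, i ≠ j → CN B i j = M i j := by
  refine ⟨9, M, by decide, by decide, by decide, by decide +kernel, ?_⟩
  rintro ⟨B, h⟩
  have z : ∀ i j : Fin 10, i < j → ((cfg B 0).symm i < (cfg B 0).symm j) := fun i j h => h
  have fix : ∀ t ≤ B.length, ∀ p ∈ P, (cfg B t).symm p.1 < (cfg B t).symm p.2 := by
    intro t ht p hp
    have e : ∀ p ∈ P, p.1 < p.2 ∧ M p.1 p.2 = 0 := by decide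
    by_contra c
    obtain ⟨u, -, -, hu⟩ := change B p.1 p.2 0 t t.zero_le ht fun k => c (k.2 (z _ _ (e p hp).1))
    have := (h _ _ (e p hp).1.ne).trans (e p hp).2
    simp only [CN, Finset.card_eq_zero, Finset.filter_eq_empty_iff] at this
    exact this (Finset.mem_univ u) hu
  have rev : ∀ i j : Fin 10, i < j → M i j = 2 →
      ∃ t ≤ B.length, (cfg B t).symm j < (cfg B t).symm i := fun i j hij hM => by
    obtain ⟨u, hu⟩ := Finset.card_pos.1 (show 0 < CN B i j by rw [h i j hij.ne, hM]; norm_num)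
    have hu := (Finset.mem_filter.1 hu).2
    have e := cfg_succ B u
    rcases Sym2.eq_iff.1 hu with ⟨rfl, rfl⟩ | ⟨rfl, rfl⟩
    · refine ⟨u + 1, u.2, ?_⟩
      rw [(Equiv.symm_apply_eq _).2 (show _ = cfg B (u + 1) (B.get u).castSucc by simp [e]),
        (Equiv.symm_apply_eq _).2 (show _ = cfg B (u + 1) (B.get u).succ by simp [e])]
      exact Fin.castSucc_lt_succ
    · exact ⟨u, u.2.le, by simp⟩
  have mid : ∀ i j : Fin 10, i < j → M i j = 2 → ∀ r s t, r ≤ s → s ≤ t → t ≤ B.length →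
      (cfg B r).symm j < (cfg B r).symm i → (cfg B s).symm i < (cfg B s).symm j →
      (cfg B t).symm j < (cfg B t).symm i → False := fun i j hij hM r s t rs st tl a b c => by
    obtain ⟨u, -, u2, u3⟩ := change B i j 0 r r.zero_le (by omega) fun k =>
      a.asymm (k.2 (z i j hij))
    obtain ⟨v, v1, v2, v3⟩ := change B i j r s rs (by omega) fun k => a.asymm (k.1 b)
    obtain ⟨w, w1, -, w3⟩ := change B i j s t st tl fun k => c.asymm (k.2 b)
    have : 2 < CN B i j := Finset.two_lt_card_iff.2 ⟨u, v, w, by simpa using u3, by simpa using v3,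
      by simpa using w3, by omega, by omega, by omega⟩
    rw [h i j hij.ne, hM] at this
    omega
  obtain ⟨t1, l1, r1⟩ := rev 0 6 (by decide) (by decide)
  obtain ⟨t2, l2, r2⟩ := rev 3 8 (by decide) (by decide)
  obtain ⟨t3, l3, r3⟩ := rev 1 9 (by decide) (by decide)
  have p11 := (LE.le.trans_lt le_rfl r1).trans_le
    (fix t1 l1 (0, 7) (by decide)).le
  have p12 := ((fix t2 l2 (7, 8) (by decide)).le.trans_lt r2).trans_le
    (fix t2 l2 (3, 6) (by decide)).le
  have p13 := ((fix t3 l3 (7, 9) (by decide)).le.trans_lt r3).trans_le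
    (fix t3 l3 (1, 6) (by decide)).le
  have q1 := fun a b => mid 6 7 (by decide) (by decide) t2 t1 t3 a b l3 p12 p11 p13
  have s1 := fun a b => mid 6 7 (by decide) (by decide) t3 t1 t2 a b l2 p13 p11 p12
  have p21 := ((fix t1 l1 (3, 6) (by decide)).le.trans_lt r1).trans_le
    (fix t1 l1 (0, 2) (by decide)).le
  have p22 := ((fix t2 l2 (2, 8) (by decide)).le.trans_lt r2).trans_le
    le_rfl
  have p23 := ((fix t3 l3 (3, 9) (by decide)).le.trans_lt r3).trans_le
    (fix t3 l3 (1, 2) (by decide)).le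
  have q2 := fun a b => mid 2 3 (by decide) (by decide) t1 t2 t3 a b l3 p21 p22 p23
  have s2 := fun a b => mid 2 3 (by decide) (by decide) t3 t2 t1 a b l1 p23 p22 p21
  have p31 := ((fix t1 l1 (5, 6) (by decide)).le.trans_lt r1).trans_le
    (fix t1 l1 (0, 4) (by decide)).le
  have p32 := ((fix t2 l2 (5, 8) (by decide)).le.trans_lt r2).trans_le
    (fix t2 l2 (3, 4) (by decide)).le
  have p33 := ((fix t3 l3 (4, 9) (by decide)).le.trans_lt r3).trans_le
    (fix t3 l3 (1, 5) (by decide)).le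
  have q3 := fun a b => mid 4 5 (by decide) (by decide) t1 t3 t2 a b l2 p31 p33 p32
  have s3 := fun a b => mid 4 5 (by decide) (by decide) t2 t3 t1 a b l1 p32 p33 p31
  rcases le_total t1 t2 with a | a <;> rcases le_total t2 t3 with b | b <;>
    rcases le_total t1 t3 with c | c <;>
    first | exact q1 a c | exact s1 c a | exact q2 a b | exact s2 b a | exact q3 c b | exact s3 b c

end Pool.Agent.Results.MP_550572_gt.Braid
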